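import Pool.Agent.Helper58.GC.DegreeB

set_option autoImplicit false

namespace Pool.Agent.Results.MP_0ba87f_co.IndicatorDegree

open Finset

/-- a family of graphs on `Fin n` in which no two distinct members have symmetric difference
equal to a clique -/
def CliqueCode (n : ℕ) (F : Finset (SimpleGraph (Fin n))) : Prop :=
  ∀ G ∈ F, ∀ H ∈ F, G ≠ H →
    ¬ ∃ S : Finset (Fin n), ∀ u v : Fin n,
        (symmDiff G H).Adj u v ↔ (u ≠ v ∧ u ∈ S ∧ v ∈ S)

open Classical in
/-- the value of a polynomial at the 0/1 vector of the edge set of a graph -/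
noncomputable def value {n : ℕ} {K : Type} [Field K] (p : MvPolynomial (Sym2 (Fin n)) K)
    (G : SimpleGraph (Fin n)) : K :=
  MvPolynomial.eval (fun e => if e ∈ G.edgeSet then 1 else 0) p

/-- `F` is the set of all graphs at which `p` does not vanish -/
def Defines {n : ℕ} {K : Type} [Field K] (p : MvPolynomial (Sym2 (Fin n)) K)
    (F : Finset (SimpleGraph (Fin n))) : Prop :=
  ∀ G : SimpleGraph (Fin n), value p G ≠ 0 ↔ G ∈ F

open Pool.Agent.Helper58.GC in
theorem cliqueCode_iff {n : ℕ} {F : Finset (SimpleGraph (Fin n))} :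
    CliqueCode n F ↔ SCode (fun _ => True) F := by
  unfold CliqueCode SCode
  simp only [true_and]

open Pool.Agent.Helper58.GC in
/-- Over every field, a polynomial whose non-vanishing set is a nonempty clique code has degree
at least `n / 2`; over the field with two elements this is attained. -/
theorem result :
    (∀ (n : ℕ) (K : Type) [Field K] (p : MvPolynomial (Sym2 (Fin n)) K)
      (F : Finset (SimpleGraph (Fin n))), CliqueCode n F → F.Nonempty → Defines p F →
        n / 2 ≤ p.totalDegree) ∧
    ∀ n : ℕ, ∃ (p : MvPolynomial (Sym2 (Fin n)) (ZMod 2)) (F : Finset (SimpleGraph (Fin n))),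
      CliqueCode n F ∧ F.Nonempty ∧ Defines p F ∧ p.totalDegree = n / 2 := by
  have h1 : ∀ (n : ℕ) (K : Type) [Field K] (p : MvPolynomial (Sym2 (Fin n)) K)
      (F : Finset (SimpleGraph (Fin n))), CliqueCode n F → F.Nonempty → Defines p F →
        n / 2 ≤ p.totalDegree :=
    fun n K _ p F hF hne hp => half_le_totalDegree (cliqueCode_iff.1 hF) hne p hp
  refine ⟨h1, fun n => ?_⟩
  obtain ⟨F, hF, hne, hp⟩ := exists_code_pk n
  exact ⟨pk n, F, cliqueCode_iff.2 hF, hne, hp,
    le_antisymm (totalDegree_pk n) (h1 n (ZMod 2) (pk n) F (cliqueCode_iff.2 hF) hne hp)⟩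

end Pool.Agent.Results.MP_0ba87f_co.IndicatorDegree
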